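import Pool.Agent.MP_6d5e8e_al.H27.C10

set_option autoImplicit false

namespace Pool.Agent.Results.MP_6d5e8e_al.Classification

open Pool.Agent.MP_6d5e8e_al.Bd

/-- A finitely generated metabelian group `G` has a nonzero cyclic module isomorphic to its square
exactly when there are a subgroup `B`, an element `t` with `t B t⁻¹ ≤ B`, a prime `p` and a
homomorphism of `B` onto `C_p × C_p` that kills `t B t⁻¹`. -/
theorem result :
    ∀ (G : Type) [Group G], Group.FG G → derivedSeries G 2 = ⊥ →
      (HasSq G ↔ ∃ (B : Subgroup G) (t : G) (ht : ∀ b ∈ B, t * b * t⁻¹ ∈ B) (p : ℕ), p.Prime ∧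
        ∃ π : B →* Multiplicative (ZMod p × ZMod p), Function.Surjective π ∧
          ∀ (b : G) (hb : b ∈ B), π ⟨t * b * t⁻¹, ht b hb⟩ = 1) :=
  fun _ _ => classify

/-- Illustration, not part of the hand-in: finitely presented groups on both sides. -/
theorem examples (r m : ℕ) (hm : 2 ≤ m) : Group.IsFinitelyPresented (PresentedGroup (rels r m)) ∧
    derivedSeries (PresentedGroup (rels r m)) 2 = ⊥ ∧
      (HasSq (PresentedGroup (rels r m)) ↔ 2 ≤ r) :=
  family r m hm

end Pool.Agent.Results.MP_6d5e8e_al.Classification
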